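import Pool.Agent.Q23.AQ.Ell
import Pool.Agent.Q23.AQ.Few
import Pool.Agent.Q23.AQ.LiC
import Pool.Agent.TH818.AP.LiInd
import Pool.Agent.TH818.AP.LiLoc

/-!
# Elliptic, Kummer and polylogarithm periods at complex algebraic points

Let `0 < α_j ≤ a < b ≤ γ_j < 1` and `λ_j(z) = (z - α_j) / (γ_j - α_j)`. For algebraic complex numbers `z` in the unit disc
cut along the real axis outside of `(a, b)` consider the Nori motive
`M_z = ⊕_j H¹(E_{λ_j(z)}) ⊕ (polylogarithm motive of z)`, where `E_λ : y² = x (x - 1) (x - λ)`. If the `α_j`, `γ_j` are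
rational, then the periods of `M_z` are generated over `ℚ(z)` by `2 π i` and the `3 N + w + 1` numbers `K(λ_j(z))`, `E(λ_j(z))`,
`K(1 - λ_j(z))`, `log z`, `Li_1(z)`, …, `Li_w(z)`, and for generic `z` the motivic Galois group has dimension `3 N + w + 2`.
The theorem is: in every finite set of complex algebraic points `z` of bounded degree in a compact part of the cut disc all but
few points (and `n`-tuples of points) are such that these numbers satisfy no relation, exact or approximate, of bounded degree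
with coefficients of polynomial height, over an arbitrary finitely generated module of complex constants.
-/

set_option autoImplicit false

open Set Filter Topology NumberField

namespace Pool.Agent.Results.MP_ae0f86_nt.ComplexPoints

/-- The complete elliptic integral of the first kind, `K(s) = ∫_0^{π/2} (1 - s sin²θ)^(-1/2) dθ`. -/
noncomputable def K (s : ℂ) : ℂ := ∫ θ in (0 : ℝ)..(Real.pi / 2), (1 - s * (Real.sin θ : ℂ) ^ 2) ^ (-(1 / 2) : ℂ)

/-- The complete elliptic integral of the second kind, `E(s) = ∫_0^{π/2} (1 - s sin²θ)^(1/2) dθ`. -/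
noncomputable def E (s : ℂ) : ℂ := ∫ θ in (0 : ℝ)..(Real.pi / 2), (1 - s * (Real.sin θ : ℂ) ^ 2) ^ (1 / 2 : ℂ)

/-- The polylogarithm `Li_k(z) = ∑_{n ≥ 1} z ^ n / n ^ k`, `|z| < 1`. -/
noncomputable def Li (k : ℕ) (z : ℂ) : ℂ := ∑' n : ℕ, z ^ (n + 1) / ((n : ℂ) + 1) ^ k

/-- The `3 N + w + 1` functions `K(s)`, `E(s)`, `K(1 - s)` for `s = (z - α_j) / (γ_j - α_j)`, `j < N`, and `log z`,
`Li_1(z)`, …, `Li_w(z)`. -/
noncomputable def fn {N w : ℕ} (α γ : Fin N → ℝ) (y : (Fin N × Fin 3) ⊕ Fin (w + 1)) (z : ℂ) : ℂ :=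
  match y with
  | Sum.inl (j, i) => ![K ((z - α j) / (γ j - α j)), E ((z - α j) / (γ j - α j)), K (1 - (z - α j) / (γ j - α j))] i
  | Sum.inr k => if (k : ℕ) = 0 then Complex.log z else Li k z

/-- The open unit disc cut along the real axis outside of `(a, b)`. -/
def Cut (a b : ℝ) : Set ℂ := {z | ‖z‖ < 1 ∧ (z.im ≠ 0 ∨ (a < z.re ∧ z.re < b))}

/-- The exceptional `n`-tuples of elements of the finite subset `X` of the number field `F ⊆ ℂ`: there is a polynomial `P`
of degree at most `d` in each variable, with coefficients of the form `∑ ξ_a ι(c_a)`, where the `c_a` are integers of `F`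
all of whose conjugates have absolute value at most `T ^ A`, such that the value of `P` at the numbers `f y (ι (q h))` is
at most `T ^ (-B)` times the absolute value of some nonzero coefficient of `P`. -/
def Exceptional {κ : Type} (f : κ → ℂ → ℂ) (n d : ℕ) {g : ℕ} (F : Type) [Field F] [NumberField F] (ι : F →+* ℂ)
    (ξ : Fin g → ℂ) (X : Finset F) (A B T : ℝ) : Set (Fin n → F) :=
  {q | (∀ h, q h ∈ X) ∧ ∃ P : MvPolynomial (Fin n × κ) ℂ, (∀ x, P.degreeOf x ≤ d) ∧
    (∀ s, ∃ c : Fin g → 𝓞 F, (∀ a (φ : F →+* ℂ), ‖φ (c a)‖ ≤ T ^ A) ∧ P.coeff s = ∑ a, ξ a * ι (c a)) ∧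
    ∃ s₀, P.coeff s₀ ≠ 0 ∧ ‖MvPolynomial.aeval (fun x : Fin n × κ => f x.2 (ι (q x.1))) P‖ ≤
      T ^ (-B) * ‖P.coeff s₀‖}

/-- For all `m`, `n`, `g`, `d`, `A` and `ε > 0` there are `B`, `C`, `T₀` such that for every number field `F` of degree at
most `m`, every embedding `ι` of `F` in `ℂ`, all complex numbers `ξ_1, …, ξ_g`, all `T ≥ T₀` and every finite set `X` of
elements of `F` whose images are in `D` and which are quotients of two integers of `F` all of whose
conjugates have absolute value at most `T`, the number of exceptional `n`-tuples of `X ^ n` is at most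
`C T^ε |X|^(n - 1)`. -/
def FewExceptions {κ : Type} (f : κ → ℂ → ℂ) (D : Set ℂ) : Prop :=
  ∀ (m n g d : ℕ) (A ε : ℝ), 0 < ε → ∃ B C T₀ : ℝ, ∀ (F : Type) [Field F] [NumberField F],
    Module.finrank ℚ F ≤ m → ∀ (ι : F →+* ℂ) (ξ : Fin g → ℂ) (T : ℝ), T₀ ≤ T → ∀ X : Finset F,
      (∀ x ∈ X, ι x ∈ D ∧ ∃ a b : 𝓞 F, b ≠ 0 ∧ (∀ φ : F →+* ℂ, ‖φ a‖ ≤ T ∧ ‖φ b‖ ≤ T) ∧ x = a / b) →
      ((Exceptional f n d F ι ξ X A B T).ncard : ℝ) ≤ C * T ^ ε * (X.card : ℝ) ^ (n - 1)

section proofs

theorem li_an (k : ℕ) {z : ℂ} (hz : ‖z‖ < 1) : AnalyticAt ℂ (Li k) z := by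
  obtain ⟨r, h1, h2⟩ := exists_between hz
  have hr : 0 ≤ r := (norm_nonneg z).trans h1.le
  have hd : DifferentiableOn ℂ (fun w : ℂ => ∑' n : ℕ, w ^ (n + 1) / ((n : ℂ) + 1) ^ k) (Metric.ball 0 r) := by
    refine Complex.differentiableOn_tsum_of_summable_norm (u := fun n : ℕ => r ^ (n + 1)) ?_ ?_ Metric.isOpen_ball ?_
    · exact (summable_nat_add_iff 1).2 (summable_geometric_of_lt_one hr h2)
    · intro n
      fun_prop
    · intro n w hw
      rw [mem_ball_zero_iff] at hw
      rw [norm_div, norm_pow, norm_pow]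
      have h3 : ‖((n : ℂ) + 1)‖ = (n : ℝ) + 1 := by
        have : ((n : ℂ) + 1) = (((n : ℝ) + 1 : ℝ) : ℂ) := by push_cast; rfl
        rw [this, Complex.norm_real, Real.norm_of_nonneg (by positivity)]
      rw [h3]
      have h4 : (1 : ℝ) ≤ ((n : ℝ) + 1) ^ k := one_le_pow₀ (by linarith [Nat.cast_nonneg (α := ℝ) n])
      calc ‖w‖ ^ (n + 1) / ((n : ℝ) + 1) ^ k ≤ ‖w‖ ^ (n + 1) / 1 := by gcongr
        _ = ‖w‖ ^ (n + 1) := div_one _
        _ ≤ r ^ (n + 1) := by gcongr
  exact hd.analyticOnNhd Metric.isOpen_ball z (by rwa [mem_ball_zero_iff])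

theorem li_real (k : ℕ) (t : ℝ) : Li k (t : ℂ) = ((TH818.AP.Li k t : ℝ) : ℂ) := by
  unfold Li TH818.AP.Li
  rw [Complex.ofReal_tsum]
  refine tsum_congr fun n => ?_
  push_cast
  rfl

theorem leg_real {α γ t : ℝ} (h1 : α < t) (h2 : t < γ) (i : Fin 3) :
    Y124.fC i (((t : ℂ) - α) / (γ - α)) = ((TH818.AP.KC α γ i t : ℝ) : ℂ) := by
  have h3 : 0 < γ - α := by linarith
  have h4 : ((t : ℂ) - α) / (γ - α) = (((t - α) / (γ - α) : ℝ) : ℂ) := by push_cast; rfl
  have h5 : 0 < (t - α) / (γ - α) := div_pos (by linarith) h3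
  have h6 : (t - α) / (γ - α) < 1 := by rw [div_lt_one h3]; linarith
  rw [h4, Y124.fC_real i _ h5 h6]
  congr 1
  have h7 : 1 - (t - α) / (γ - α) = (γ - t) / (γ - α) := by
    field_simp
    ring
  fin_cases i
  · simp [TH818.AP.KC]
  · simp [TH818.AP.KC]
  · simp [TH818.AP.KC, h7]

theorem cut_star {a b : ℝ} (hab : a < b) (ha : 0 ≤ a) (hb : b ≤ 1) :
    StarConvex ℝ (((a + b) / 2 : ℝ) : ℂ) (Cut a b) := by
  intro z hz x y hx hy hxy
  obtain ⟨h1, h2⟩ := hz
  have hc : ‖(((a + b) / 2 : ℝ) : ℂ)‖ < 1 := by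
    rw [Complex.norm_real, Real.norm_of_nonneg (by linarith)]
    linarith
  refine ⟨?_, ?_⟩
  · have h3 := (convex_ball (0 : ℂ) 1) (mem_ball_zero_iff.2 hc) (mem_ball_zero_iff.2 h1) hx hy hxy
    exact mem_ball_zero_iff.1 h3
  · have him : (x • (((a + b) / 2 : ℝ) : ℂ) + y • z).im = y * z.im := by simp
    have hre : (x • (((a + b) / 2 : ℝ) : ℂ) + y • z).re = x * ((a + b) / 2) + y * z.re := by
      simp
    rw [him, hre]
    rcases h2 with h2 | ⟨h2, h3⟩
    · rcases hy.eq_or_lt with h4 | h4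
      · right
        have hx1 : x = 1 := by linarith
        subst h4
        rw [hx1]
        constructor <;> linarith
      · left
        exact mul_ne_zero h4.ne' h2
    · right
      have hx' : x = 1 - y := by linarith
      subst hx'
      constructor
      · nlinarith
      · nlinarith

theorem cut_mem {a b : ℝ} {t : ℝ} (ha : 0 ≤ a) (hb : b ≤ 1) (h1 : a < t) (h2 : t < b) : (t : ℂ) ∈ Cut a b := by
  refine ⟨?_, Or.inr ?_⟩
  · rw [Complex.norm_real, Real.norm_of_nonneg (by linarith)]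
    linarith
  · simpa using ⟨h1, h2⟩

theorem cut_pre {a b : ℝ} (hab : a < b) (ha : 0 ≤ a) (hb : b ≤ 1) : IsPreconnected (Cut a b) :=
  ((cut_star hab ha hb).isPathConnected (cut_mem ha hb (by linarith) (by linarith))).isConnected.isPreconnected

theorem leg_dom {a b α γ : ℝ} (h1 : α ≤ a) (h2 : b ≤ γ) (hab : a < b) {z : ℂ} (hz : z ∈ Cut a b) :
    (z - α) / (γ - α) ∈ Y124.Dom := by
  have h3 : 0 < γ - α := by linarith
  have hs : ((γ : ℂ) - α) = (((γ - α : ℝ)) : ℂ) := by push_cast; rfl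
  have hre : ((z - α) / (γ - α)).re = (z.re - α) / (γ - α) := by
    rw [hs, Complex.div_ofReal_re]
    simp
  have him : ((z - α) / (γ - α)).im = z.im / (γ - α) := by
    rw [hs, Complex.div_ofReal_im]
    simp
  constructor
  · rw [Complex.mem_slitPlane_iff, hre, him]
    rcases hz.2 with h4 | ⟨h4, h5⟩
    · right
      exact div_ne_zero h4 h3.ne'
    · left
      exact div_pos (by linarith) h3
  · rw [Complex.mem_slitPlane_iff]
    have h6 : (1 - (z - α) / (γ - α)).re = (γ - z.re) / (γ - α) := by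
      rw [Complex.sub_re, hre, Complex.one_re]
      field_simp
      ring
    have h7 : (1 - (z - α) / (γ - α)).im = -(z.im / (γ - α)) := by
      rw [Complex.sub_im, him, Complex.one_im, zero_sub]
    rw [h6, h7]
    rcases hz.2 with h4 | ⟨h4, h5⟩
    · right
      exact neg_ne_zero.2 (div_ne_zero h4 h3.ne')
    · left
      exact div_pos (by linarith) h3

end proofs

/-- Let `α_1 > ⋯ > α_N > 0`, `γ_1 < ⋯ < γ_N < 1`, `0 ≤ a < b ≤ 1` and `α_1 ≤ a`, `b ≤ γ_1`. Then there are few exceptions for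
the `3 N + w + 1` functions `fn α γ` in every compact subset of the unit disc cut along the real axis outside of `(a, b)`. -/
theorem result {N : ℕ} (w : ℕ) (α γ : Fin N → ℝ) (hα : StrictAnti α) (hγ : StrictMono γ) (hα0 : ∀ j, 0 < α j)
    (hγ1 : ∀ j, γ j < 1) (a b : ℝ) (ha : 0 ≤ a) (hab : a < b) (hb : b ≤ 1) (h : ∀ j, α j ≤ a ∧ b ≤ γ j)
    (D : Set ℂ) (hD : IsCompact D) (hDc : D ⊆ Cut a b) : FewExceptions (fn (w := w) α γ) D := by
  intro m n g d A ε hε
  -- a smaller interval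
  set a' : ℝ := (2 * a + b) / 3 with ha'
  set b' : ℝ := (a + 2 * b) / 3 with hb'
  have h1 : a < a' := by rw [ha']; linarith
  have h2 : a' < b' := by rw [ha', hb']; linarith
  have h3 : b' < b := by rw [hb']; linarith
  set u : Fin (w + 1) → ℝ → ℝ := fun k t => TH818.AP.pl (k : ℕ) t with hu
  have huan : ∀ k, ∀ t ∈ Ioo (0 : ℝ) 1, AnalyticAt ℝ (u k) t := by
    intro k t ht
    simp only [hu, TH818.AP.pl]
    by_cases hk : (k : ℕ) = 0
    · simp only [hk, if_true]
      exact analyticAt_log ht.1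
    · simp only [hk, if_false]
      exact TH818.AP.liAn _ t ⟨by linarith [ht.1], ht.2⟩
  have hind : ∀ d : ℕ, TH818.AP.RIndep (fun (e : ((Fin N × Fin 3) ⊕ Fin (w + 1)) → Fin (d + 1)) (t : ℝ) =>
      ∏ p, Sum.elim (fun z : Fin N × Fin 3 => TH818.AP.KC (α z.1) (γ z.1) z.2) u p t ^ (e p : ℕ)) a' b' := by
    intro d
    refine Q23.AQ.comb_leg u 0 1 a' b' (by linarith) h2 (by linarith) (fun k t ht => huan k t ht) ?_ α γ hα hγ
      (fun j => (h j).1.trans_lt (hab.trans_le (h j).2)) hα0 hγ1 (fun j => ⟨by linarith [(h j).1], by linarith [(h j).2]⟩)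
    intro a'' b'' ha'' hab'' hb''
    exact TH818.AP.liInd_of TH818.AP.liAn TH818.AP.liLoc w d a'' b'' (by linarith) hab'' (by linarith)
  have hfn : ∀ (j : Fin N) (i : Fin 3) (z : ℂ),
      fn (w := w) α γ (Sum.inl (j, i)) z = Y124.fC i ((z - α j) / (γ j - α j)) := by
    intro j i z
    fin_cases i <;> rfl
  have han : ∀ y, ∀ t ∈ Cut a b, AnalyticAt ℂ (fn (w := w) α γ y) t := by
    rintro (⟨j, i⟩ | k) t ht
    · have h4 : fn (w := w) α γ (Sum.inl (j, i)) = fun z => Y124.fC i ((z - α j) / (γ j - α j)) := by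
        funext z
        exact hfn j i z
      rw [h4]
      have h5 := Y124.fC_analytic i _ (leg_dom (h j).1 (h j).2 hab ht)
      exact AnalyticAt.comp (f := fun z : ℂ => (z - α j) / (γ j - α j)) h5
        ((analyticAt_id.sub analyticAt_const).mul analyticAt_const)
    · by_cases hk : (k : ℕ) = 0
      · have h4 : fn (w := w) α γ (Sum.inr k) = fun z => Complex.log z := by
          funext z
          simp [fn, hk]
        rw [h4]
        refine analyticAt_id.clog ?_
        rw [Complex.mem_slitPlane_iff]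
        rcases ht.2 with h5 | ⟨h5, h6⟩
        · exact Or.inr h5
        · exact Or.inl (ha.trans_lt h5)
      · have h4 : fn (w := w) α γ (Sum.inr k) = Li k := by
          funext z
          simp [fn, hk]
        rw [h4]
        exact li_an k ht.1
  refine Q23.AQ.fewC (fn (w := w) α γ) D hD (fun y t ht => han y t (hDc ht)) (fun t ht => ?_) m n g d A ε hε
  refine Q23.AQ.locInd_real _ (fn (w := w) α γ) (Cut a b) (cut_pre hab ha hb) han a' b' ?_ ?_ hind t (hDc ht)
  · intro t ht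
    exact cut_mem ha hb (by linarith [ht.1]) (by linarith [ht.2])
  · rintro (⟨j, i⟩ | k) t ht
    · rw [hfn]
      exact leg_real (by linarith [ht.1, (h j).1]) (by linarith [ht.2, (h j).2]) i
    · by_cases hk : (k : ℕ) = 0
      · have h4 : fn (w := w) α γ (Sum.inr k) (t : ℂ) = Complex.log t := by
          simp [fn, hk]
        rw [h4, ← Complex.ofReal_log (by linarith [ht.1])]
        show ((Real.log t : ℝ) : ℂ) = ((TH818.AP.pl (k : ℕ) t : ℝ) : ℂ)
        unfold TH818.AP.pl
        rw [if_pos hk]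
      · have h4 : fn (w := w) α γ (Sum.inr k) (t : ℂ) = Li k t := by
          simp [fn, hk]
        rw [h4, li_real]
        show ((TH818.AP.Li (k : ℕ) t : ℝ) : ℂ) = ((TH818.AP.pl (k : ℕ) t : ℝ) : ℂ)
        unfold TH818.AP.pl
        rw [if_neg hk]

end Pool.Agent.Results.MP_ae0f86_nt.ComplexPoints
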