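import Pool.Agent.Y119.PLM.Reg
import Pool.Agent.Q311.MV.Spec
import Pool.Agent.Q311.KO.Ostm

/-!
# The period conjecture, in bounded degree, for almost all fibres of mixed families over bases of any dimension: pure
# part with symplectic monodromy, arbitrary (iterated) extensions

Let `Y j`, `j` in a finite set `κ`, be the period matrices of families of smooth projective varieties of odd dimension
(of their middle cohomology) over a connected open subset `U` of the affine space with coordinates indexed by the
finite set `X`, in symplectic bases of the algebraic de Rham cohomology, with Zariski dense monodromy in the product of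
the symplectic groups. The periods of families of mixed Nori motives with these graded pieces (and Tate twists) are
obtained from the `Y j` by successive integrations: if `Y` is the block triangular period matrix, `D` its diagonal part
and `Z = D⁻¹ Y` then `dZ = N Z` with a strictly block triangular matrix `N` of `1`-forms with coefficients in the field
`F = ℂ(x, D)`, which is stable under the partial derivatives (Gauss and Manin). Thus the entries of `Z` form a tower of
primitives over `F`.

(A) Arbitrary towers: there are bounds `ω T → ∞` such that, at all points with coordinates in number fields of degree at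
most `ω T` and height at most `T` outside few hypersurfaces of small degree, all relations between the periods of the
mixed fibre of degree at most `ω T`, whose coefficients are combinations of arbitrary given complex constants `ξ` (for
instance the powers of `2 π i`) with integral coefficients in the number field of size at most `T ^ ω T`, are
specialisations of relations between the periods as functions of `x`, with coefficients in `∑ ξ_a ℚ̄[x]`.

(B) One step (extensions of `ℚ(0)` by the pure part, or of the pure part by Tate motives: normal functions, families of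
`1`-motives, logarithms, integrals of the second and third kind, Eichler integrals): if no nontrivial linear combination
of the `z i` with constant coefficients is in `F`, then all such relations hold on the whole period torsor, the product of
the torsor of the pure part and of the affine space: the values of `z` are arbitrary.
-/

set_option autoImplicit false

open Filter NumberField Matrix Pool.Agent.Q311.MV Pool.Agent.Q311.KO
open Pool.Agent.Y119.PLM (MT Ix IsMon DenseMon regularM_of sp_mem vt)
open Pool.Agent.Y890.MV (InnerM RegularM evM)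
open Pool.Agent.Y890.SP (Qbar)

namespace Pool.Agent.Results.MP_ae0f86_nt.MixedFamilies

/-- the entries of the matrices as functions -/
def entries {X κ : Type} {n : κ → ℕ} (Y : (X → ℂ) → MT n) (i : Ix n) (x : X → ℂ) : ℂ := Y x i.1 i.2.1 i.2.2

/-- the differential of `g` on `U` is a `1`-form whose coefficients are rational functions of `x` and of the `f i x` -/
def Primitive {X σ : Type} [Fintype X] [DecidableEq X] (U : Set (X → ℂ)) (f : σ → (X → ℂ) → ℂ) (g : (X → ℂ) → ℂ) :
    Prop :=
  ∀ j : X, ∃ P Q : MvPolynomial σ (MvPolynomial X ℂ), (∃ x ∈ U, evM f x Q ≠ 0) ∧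
    ∀ x ∈ U, evM f x Q * fderiv ℂ g x (Pi.single j 1) = evM f x P

/-- polynomials of degree at most `k` in each variable, with coefficients of the form `∑ a, ξ a * c a`, `c a` integers of
`K` with all conjugates at most `T ^ k` -/
def Bounded {σ : Type} (k : ℕ) (K : Type) [Field K] [NumberField K] (io : K →+* ℂ) (ξ : Fin k → ℂ) (T : ℝ)
    (P : MvPolynomial σ ℂ) : Prop :=
  (∀ i, P.degreeOf i ≤ k) ∧
    ∀ m, ∃ c : Fin k → 𝓞 K, (∀ a (φ : K →+* ℂ), ‖φ (c a : K)‖ ≤ T ^ k) ∧ P.coeff m = ∑ a, ξ a * io (c a : K)

/-- every bounded polynomial which vanishes at the values of the functions `f` at `s` is the specialisation of a relation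
between the functions, of the same degree and with coefficients of the form `∑ a, ξ a * G a` with polynomials `G a` in `x`
with algebraic coefficients -/
def Specialised {X σ : Type} [Fintype X] (U : Set (X → ℂ)) (f : σ → (X → ℂ) → ℂ) (k : ℕ) (K : Type)
    [Field K] [NumberField K] (io : K →+* ℂ) (ξ : Fin k → ℂ) (T : ℝ) (s : X → ℂ) : Prop :=
  ∀ P : MvPolynomial σ ℂ, Bounded k K io ξ T P → MvPolynomial.eval (fun i => f i s) P = 0 →
    ∃ F : MvPolynomial σ (MvPolynomial X ℂ), (∀ x ∈ U, evM f x F = 0) ∧
      MvPolynomial.map (MvPolynomial.eval s) F = P ∧ (∀ y, F.degreeOf y ≤ k) ∧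
      ∀ m, ∃ G : Fin k → MvPolynomial X Qbar,
        F.coeff m = ∑ a, MvPolynomial.C (ξ a) * MvPolynomial.map (algebraMap Qbar ℂ) (G a)

/-- every bounded polynomial in the entries of the matrices and `m` further variables, which vanishes at `(Y s, z s)`,
vanishes at `(A, w)` for all tuples of matrices `A` with `(A j)ᵀ * J' j * A j = J j` and all vectors `w` -/
def Torsor {X κ : Type} {n : κ → ℕ} {m : ℕ} (J J' : MT n) (Y : (X → ℂ) → MT n) (z : Fin m → (X → ℂ) → ℂ) (k : ℕ)
    (K : Type) [Field K] [NumberField K] (io : K →+* ℂ) (ξ : Fin k → ℂ) (T : ℝ) (s : X → ℂ) : Prop :=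
  ∀ P : MvPolynomial (Ix n ⊕ Fin m) ℂ, Bounded k K io ξ T P →
    MvPolynomial.eval (Sum.elim (fun i => Y s i.1 i.2.1 i.2.2) fun i => z i s) P = 0 →
    ∀ A : MT n, (∀ j, (A j)ᵀ * J' j * A j = J j) → ∀ w : Fin m → ℂ,
      MvPolynomial.eval (Sum.elim (fun i => A i.1 i.2.1 i.2.2) w) P = 0

/-- the points with coordinates in `K` of height at most `T`, of norm at most `k` and at distance at least `1 / k` from the
complement of `U`, which do not have the property `p` -/
def Exceptional {X : Type} [Fintype X] (U : Set (X → ℂ)) (p : (X → ℂ) → Prop) (k : ℕ) (K : Type) [Field K]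
    [NumberField K] (io : K →+* ℂ) (T : ℝ) : Set (X → K) :=
  {s | (∀ j, Y120.HtLe K T (s j)) ∧ (fun j => io (s j)) ∈ InnerM U k ∧ ¬ p (fun j => io (s j))}

/-- the points lie on at most `T ^ (1 / k)` hypersurfaces of degree at most `T ^ (1 / k)`, and there are at most
`T ^ (1 / k) * N ^ (|X| - 1)` of them, `N` being the number of elements of `K` of height at most `T` -/
def Few {X : Type} [Fintype X] (k : ℕ) (K : Type) [Field K] [NumberField K] (io : K →+* ℂ) (T : ℝ) (S : Set (X → K)) :
    Prop :=
  Y124.Cov ⌊T ^ ((k : ℝ)⁻¹)⌋₊ ⌊T ^ ((k : ℝ)⁻¹)⌋₊ ((fun (s : X → K) i => io (s i)) '' S) ∧ S.Finite ∧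
    (S.ncard : ℝ) ≤ T ^ ((k : ℝ)⁻¹) * ({x : K | Y120.HtLe K T x}.ncard : ℝ) ^ (Fintype.card X - 1)

theorem few_mono {X : Type} [Fintype X] {k : ℕ} {K : Type} [Field K] [NumberField K] {io : K →+* ℂ} {T : ℝ}
    {S S' : Set (X → K)} (h : Few k K io T S') (hS : S ⊆ S') : Few k K io T S :=
  ⟨h.1.mono le_rfl le_rfl (Set.image_mono hS), h.2.1.subset hS,
    le_trans (by exact_mod_cast Set.ncard_le_ncard hS h.2.1) h.2.2⟩

/-- functional relations hold on the torsor -/
theorem tor_inv {X κ : Type} [Fintype X] [DecidableEq κ] {n : κ → ℕ} {J J' : MT n} {U : Set (X → ℂ)} (hU : IsPreconnected U)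
    {Y : (X → ℂ) → MT n} (hY : ∀ j a b, AnalyticOnNhd ℂ (fun x => Y x j a b) U)
    (hdet : ∀ j, (J j).det ≠ 0) (hsym : ∀ x ∈ U, ∀ j, (Y x j)ᵀ * J' j * Y x j = J j) (hD : DenseMon U Y J)
    {x : X → ℂ} (hx : x ∈ U) {A : MT n} (hA : ∀ j, (A j)ᵀ * J' j * A j = J j)
    (p : MvPolynomial (Ix n) (MvPolynomial X ℂ)) (hp : ∀ x ∈ U, evM (entries Y) x p = 0) :
    MvPolynomial.eval₂ (MvPolynomial.eval x) (fun i : Ix n => A i.1 i.2.1 i.2.2) p = 0 := by
  have hYd : ∀ j, (Y x j).det ≠ 0 := by
    intro j h0
    apply hdet j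
    rw [← hsym x hx j, det_mul, h0, mul_zero]
  have hg : ∀ j, ((Y x j)⁻¹ * A j)ᵀ * J j * ((Y x j)⁻¹ * A j) = J j := by
    intro j
    have h1 : Y x j * ((Y x j)⁻¹ * A j) = A j := by
      rw [← Matrix.mul_assoc, mul_nonsing_inv _ (isUnit_iff_ne_zero.2 (hYd j)), Matrix.one_mul]
    calc ((Y x j)⁻¹ * A j)ᵀ * J j * ((Y x j)⁻¹ * A j)
        = ((Y x j)⁻¹ * A j)ᵀ * ((Y x j)ᵀ * J' j * Y x j) * ((Y x j)⁻¹ * A j) := by rw [hsym x hx j]
      _ = (Y x j * ((Y x j)⁻¹ * A j))ᵀ * J' j * (Y x j * ((Y x j)⁻¹ * A j)) := by
        rw [transpose_mul (Y x j)]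
        simp only [Matrix.mul_assoc]
      _ = J j := by rw [h1, hA j]
  have h1 := sp_mem hU hY hD (fun j => (Y x j)⁻¹ * A j) hg p hp x hx
  have h2 : Y x * (fun j => (Y x j)⁻¹ * A j) = A := by
    funext j
    rw [Pi.mul_apply, ← Matrix.mul_assoc, mul_nonsing_inv _ (isUnit_iff_ne_zero.2 (hYd j)), Matrix.one_mul]
  rw [h2] at h1
  exact h1

/-- Let `U` be a connected open subset of `ℂ ^ X`, `Y j` square matrices of analytic functions on `U`, `J j` invertible
alternating matrices and `J' j` matrices with `(Y j)ᵀ * J' j * Y j = J j` on `U`. We assume that the monodromy is Zariski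
dense in the product of the symplectic groups of the `J j`, and that the partial derivatives of the entries of the `Y j`
are rational functions of `x` and of the entries.

(A) Let `z 0, …, z (m - 1)` be analytic functions on `U` such that the differential of `z i` has coefficients in the field
generated by `x`, the entries of the `Y j` and the `z k`, `k < i`. There is `ω → ∞` such that for all large `T`, all number
fields `K` of degree at most `ω T`, all embeddings and all complex numbers `ξ a`, `a < ω T`, there are few points at which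
some relation is not specialised from a relation between the functions.

(B) Let the differentials of all `z i` have coefficients in the field generated by `x` and the entries of the `Y j`, and
let no nontrivial linear combination of the `z i` with constant coefficients be in this field. Then, similarly, there
are few points at which some relation does not hold on the whole torsor. -/
theorem result {X κ : Type} [Fintype X] [DecidableEq X] [Nonempty X] [Fintype κ] [DecidableEq κ] (n : κ → ℕ)
    (J J' : MT n) (hJ : ∀ j, (J j)ᵀ = -J j) (hdet : ∀ j, (J j).det ≠ 0) (U : Set (X → ℂ)) (hU : IsPreconnected U)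
    (hUo : IsOpen U) (hne : U.Nonempty) (Y : (X → ℂ) → MT n) (hY : ∀ j a b, AnalyticOnNhd ℂ (fun x => Y x j a b) U)
    (hsym : ∀ x ∈ U, ∀ j, (Y x j)ᵀ * J' j * Y x j = J j) (hGM : ∀ i, Primitive U (entries Y) (entries Y i))
    (hD : DenseMon U Y J) (m : ℕ) (z : Fin m → (X → ℂ) → ℂ) (hz : ∀ i, AnalyticOnNhd ℂ (z i) U) :
    ((∀ i, Primitive U (Sum.elim (entries Y) fun k : {k : Fin m // k < i} => z k.1) (z i)) →
      ∃ (ω : ℝ → ℕ) (T₀ : ℝ), Tendsto ω atTop atTop ∧ Monotone ω ∧ ∀ T, T₀ ≤ T → 0 < ω T ∧
        ∀ (K : Type) [Field K] [NumberField K], Module.finrank ℚ K ≤ ω T → ∀ (io : K →+* ℂ) (ξ : Fin (ω T) → ℂ),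
          Few (ω T) K io T (Exceptional U (Specialised U (Sum.elim (entries Y) z) (ω T) K io ξ T) (ω T) K io T)) ∧
    ((∀ i, Primitive U (entries Y) (z i)) →
      (∀ (c : Fin m → ℂ) (P Q : MvPolynomial (Ix n) (MvPolynomial X ℂ)), (∃ x ∈ U, evM (entries Y) x Q ≠ 0) →
        (∀ x ∈ U, evM (entries Y) x Q * ∑ i, c i * z i x = evM (entries Y) x P) → c = 0) →
      ∃ (ω : ℝ → ℕ) (T₀ : ℝ), Tendsto ω atTop atTop ∧ Monotone ω ∧ ∀ T, T₀ ≤ T → 0 < ω T ∧
        ∀ (K : Type) [Field K] [NumberField K], Module.finrank ℚ K ≤ ω T → ∀ (io : K →+* ℂ) (ξ : Fin (ω T) → ℂ),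
          Few (ω T) K io T (Exceptional U (Torsor J J' Y z (ω T) K io ξ T) (ω T) K io T)) := by
  classical
  have hYa : ∀ i, AnalyticOnNhd ℂ (entries Y i) U := fun i => hY _ _ _
  have hregY : RegularM U (entries Y) :=
    regularM_of hJ hdet hU hUo hY hsym (fun g hg => sp_mem hU hY hD g hg)
  have hA : (∀ i, Primitive U (Sum.elim (entries Y) fun k : {k : Fin m // k < i} => z k.1) (z i)) →
      ∃ (ω : ℝ → ℕ) (T₀ : ℝ), Tendsto ω atTop atTop ∧ Monotone ω ∧ ∀ T, T₀ ≤ T → 0 < ω T ∧
        ∀ (K : Type) [Field K] [NumberField K], Module.finrank ℚ K ≤ ω T → ∀ (io : K →+* ℂ) (ξ : Fin (ω T) → ℂ),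
          Few (ω T) K io T
            (Exceptional U (Specialised U (Sum.elim (entries Y) z) (ω T) K io ξ T) (ω T) K io T) := by
    intro hT
    have hreg := tower_reg hU hUo hne (entries Y) hYa hGM hregY z hz hT
    obtain ⟨ω, T₀, h1, h2, h3⟩ := spec_main hU hUo hne (f := Sum.elim (entries Y) z) (an_elim hYa hz) hreg
    refine ⟨ω, T₀, h1, h2, fun T hT => ⟨(h3 T hT).1, fun K _ _ hK io ξ => ?_⟩⟩
    have h4 : Few (ω T) K io T _ := (h3 T hT).2 K hK io ξ
    refine few_mono h4 ?_
    rintro s ⟨hs1, hs2, hs3⟩
    exact ⟨hs1, hs2, fun hf => hs3 fun P hP hv => hf P hP.1 hP.2 hv⟩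
  refine ⟨hA, fun hp hind => ?_⟩
  -- one step
  have hT : ∀ i, Primitive U (Sum.elim (entries Y) fun k : {k : Fin m // k < i} => z k.1) (z i) := by
    intro i j
    obtain ⟨P, Q, hQ, hPQ⟩ := hp i j
    have hren : ∀ (R : MvPolynomial (Ix n) (MvPolynomial X ℂ)) (x : X → ℂ),
        evM (Sum.elim (entries Y) fun k : {k : Fin m // k < i} => z k.1) x (MvPolynomial.rename Sum.inl R) =
          evM (entries Y) x R := by
      intro R x
      unfold evM
      rw [MvPolynomial.eval₂_rename]
      rfl
    refine ⟨MvPolynomial.rename Sum.inl P, MvPolynomial.rename Sum.inl Q, ?_, ?_⟩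
    · obtain ⟨x, hx, hQx⟩ := hQ
      exact ⟨x, hx, by rw [hren]; exact hQx⟩
    · intro x hx
      rw [hren, hren]
      exact hPQ x hx
  obtain ⟨ω, T₀, h1, h2, h3⟩ := hA hT
  refine ⟨ω, T₀, h1, h2, fun T hT => ⟨(h3 T hT).1, fun K _ _ hK io ξ => ?_⟩⟩
  have hpos := (h3 T hT).1
  refine few_mono ((h3 T hT).2 K hK io ξ) ?_
  rintro s ⟨hs1, hs2, hs3⟩
  refine ⟨hs1, hs2, fun hf => hs3 fun P hP hv A hA w => ?_⟩
  have hsU := Pool.Agent.Y890.MV.innerM_sub U hpos hs2
  have hfun : (fun i => Sum.elim (entries Y) z i fun j => io (s j)) =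
      Sum.elim (fun i : Ix n => Y (fun j => io (s j)) i.1 i.2.1 i.2.2) fun i => z i fun j => io (s j) := by
    funext i
    rcases i with i | i <;> rfl
  obtain ⟨F, hF1, hF2, _, _⟩ := hf P hP (by rw [hfun]; exact hv)
  have h4 := ost_all hU hUo hne (entries Y) hYa hGM z hz hp hind F hF1 (x := fun j => io (s j))
    (A := fun i : Ix n => A i.1 i.2.1 i.2.2)
    (fun p hp => tor_inv hU hY hdet hsym hD hsU hA p hp) w
  rw [← hF2, MvPolynomial.eval_map]
  exact h4

end Pool.Agent.Results.MP_ae0f86_nt.MixedFamilies
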