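import Pool.Agent.Y123.GN.D7
import Pool.Agent.Results.MP_caab05_ag.BigMonodromyTorsors

/-!
# The torsor form of the period conjecture for almost all fibres of mixed families of motives

Let `h_i`, `i < k`, be families of G-functions over `ℚ` (`GFamily`) and let `P_i(x)` be square matrices with entries
which are polynomials in `log x` and the functions `h_{i,l}(x)`: the period matrices of families `M_{i,x}` of mixed
motives over an open part of the line. Let `Gal(P_i)` be the group of the matrices `g` such that `P_i` and `g P_i`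
satisfy the same polynomial relations over `ℂ(x)`, let `C₀` be the period matrix of an arbitrary motive `M_0` and
`c = C₀ ⊕ ⨁_i P_i(1 / t_i)`, the period matrix of the sum of `M_0` and of the fibres at `1 / t_i`.

We show that for almost all tuples of integers `t` every `K`-subtorsor `T` of `GL` with `c ∈ T` (`K` a number field of
degree at most `D`) is stable under the commutator group of the group generated by the unipotent one-parameter groups in
`Gal(P_i)` and under the unipotent elements of `Gal(P_i)` which join pieces of different weights with constant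
periods of transcendental quotient; that for mixed Tate families `P_i` it is stable under the whole group
`Gal(P_i)`; and that the Lie algebra of `T` is normalised by all the groups `Gal(P_i)`.
-/

set_option autoImplicit false

open PowerSeries Filter

namespace Pool.Agent.Results.MP_ae0f86_nt.MixedTorsors

open Pool.Agent.Results.MP_caab05_ag.BigMonodromyTorsors (GFamily perMat Gal nilpotents unipotents known
  IsSubtorsor total)

section family

variable {r n : ℕ}

/-- The matrix of period functions is block triangular for the weights `wt`, and for the weights `j` in `E` the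
diagonal block is `ω j` times a matrix with entries in `K`: the graded piece of weight `j` has constant periods. -/
structure Weighted (K : Subfield ℂ) (P : Fin n → Fin n → MvPolynomial (Option (Fin r)) ℂ) (wt : Fin n → ℤ)
    (E : Set ℤ) (ω : ℤ → ℂ) : Prop where
  /-- block triangular -/
  tri : ∀ a b, wt b < wt a → P a b = 0
  /-- the pieces with constant periods -/
  diag : ∀ a b, wt b = wt a → wt a ∈ E → ∃ κ ∈ K, P a b = MvPolynomial.C (ω (wt a) * κ)

/-- mixed Tate families: the graded pieces are sums of `ℚ(-j)`, with periods `(2 π i) ^ j` -/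
def MixedTate (K : Subfield ℂ) (P : Fin n → Fin n → MvPolynomial (Option (Fin r)) ℂ) : Prop :=
  ∃ wt : Fin n → ℤ, Weighted K P wt Set.univ (fun j => (2 * Real.pi * Complex.I : ℂ) ^ j)

/-- the elements `g` of `Gal(P)` such that `g - 1` joins only pieces of weights `a < b` such that all the weights
`a' ≤ a`, `b' ≥ b` belong to pieces with constant periods of transcendental quotient -/
def joining (K : Subfield ℂ) (h : Fin r → ℚ⟦X⟧) (P : Fin n → Fin n → MvPolynomial (Option (Fin r)) ℂ) :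
    Set (Matrix.GeneralLinearGroup (Fin n) ℂ) :=
  {g | g ∈ Gal h P ∧ ∃ (wt : Fin n → ℤ) (E : Set ℤ) (ω : ℤ → ℂ), Weighted K P wt E ω ∧
    ∀ a b, (g : Matrix (Fin n) (Fin n) ℂ) a b ≠ (1 : Matrix (Fin n) (Fin n) ℂ) a b →
      wt a < wt b ∧ ∀ a' b', wt a' ≤ wt a → wt b ≤ wt b' → wt a' ∈ E ∧ wt b' ∈ E ∧
        Transcendental ℚ (ω (wt a') / ω (wt b'))}

end family

/-- `w` is in the Lie algebra of `T`: the polynomials which vanish on `T` have derivative zero at the points `x` of `T`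
in the directions `w x`. -/
def InLie {B : Type} [Fintype B] [DecidableEq B] (T : Set (Matrix B B ℂ)) (w : Matrix B B ℂ) : Prop :=
  ∀ F : MvPolynomial (B × B) ℂ, (∀ x ∈ T, MvPolynomial.eval (fun b => x b.1 b.2) F = 0) →
    ∀ x ∈ T, ∑ b, MvPolynomial.eval (fun b => x b.1 b.2) (MvPolynomial.pderiv b F) * (w * x) b.1 b.2 = 0

section
variable {k r : ℕ} {n : Fin k → ℕ} {ρ : Fin k → ℕ}

/-- The conclusion for one tuple; `Z i` is the period matrix of the fibre of the `i`-th family. -/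
def Good (K : Subfield ℂ) (C₀ : Matrix (Fin r) (Fin r) ℂ) (h : ∀ i, Fin (ρ i) → ℚ⟦X⟧)
    (P : ∀ i, Fin (n i) → Fin (n i) → MvPolynomial (Option (Fin (ρ i))) ℂ)
    (Z : ∀ i, Matrix (Fin (n i)) (Fin (n i)) ℂ) : Prop :=
  ∀ T : Set (Matrix (Fin r ⊕ Σ i, Fin (n i)) (Fin r ⊕ Σ i, Fin (n i)) ℂ), IsSubtorsor K T → total C₀ Z ∈ T →
  -- stability
  (∀ g : ∀ i, Matrix.GeneralLinearGroup (Fin (n i)) ℂ,
    (∀ i, g i ∈ Subgroup.closure ((known (Gal (h i) (P i)) : Set _) ∪ joining K (h i) (P i)) ∨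
      (MixedTate K (P i) ∧ g i ∈ Gal (h i) (P i))) →
    ∀ x ∈ T, total 1 (fun i => (g i : Matrix (Fin (n i)) (Fin (n i)) ℂ)) * x ∈ T) ∧
  -- normality
  (∀ g : ∀ i, Matrix.GeneralLinearGroup (Fin (n i)) ℂ, (∀ i, g i ∈ Gal (h i) (P i)) →
    ∀ w : Matrix (Fin r ⊕ Σ i, Fin (n i)) (Fin r ⊕ Σ i, Fin (n i)) ℂ, InLie T w →
      InLie T (total 1 (fun i => (g i : Matrix (Fin (n i)) (Fin (n i)) ℂ)) * w *
        (total 1 fun i => (g i : Matrix (Fin (n i)) (Fin (n i)) ℂ))⁻¹))

theorem weighted_iff {K : Subfield ℂ} {r' n' : ℕ} {P : Fin n' → Fin n' → MvPolynomial (Option (Fin r')) ℂ}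
    {wt : Fin n' → ℤ} {E : Set ℤ} {ω : ℤ → ℂ} (h : Weighted K P wt E ω) : Pool.Agent.Y123.GN.Grd K P wt E ω :=
  ⟨h.tri, h.diag⟩

theorem good_of {K : Subfield ℂ} {C₀ : Matrix (Fin r) (Fin r) ℂ} {h : ∀ i, Fin (ρ i) → ℚ⟦X⟧}
    {P : ∀ i, Fin (n i) → Fin (n i) → MvPolynomial (Option (Fin (ρ i))) ℂ} {t : Fin k → ℕ}
    (hg : Pool.Agent.Y123.GN.FullM K C₀ h P t) : Good K C₀ h P fun i => perMat (h i) (P i) (t i : ℝ) := by
  intro T hT hcT
  have hT' := Pool.Agent.Y123.ST.subT_iff.1 hT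
  obtain ⟨h1, h2, h3⟩ := hg
  refine ⟨fun g hgi x hx => h1 T hT' hcT g (fun i => ?_) x hx, fun g hgi w hw => h3 T hT' hcT g hgi w hw⟩
  rcases hgi i with hi | ⟨hM, hi⟩
  · refine Subgroup.closure_mono ?_ hi
    rintro u (hu | ⟨hu, wt, E, ω, hW, hu'⟩)
    · exact Or.inl (Or.inl hu)
    · exact Or.inl (Or.inr ⟨hu, wt, E, ω, weighted_iff hW, hu'⟩)
  · obtain ⟨wt, hW⟩ := hM
    exact h2 i ⟨wt, weighted_iff hW⟩ hi

end

/-- **The theorem.** -/
theorem result (k e r : ℕ) (ρ n : Fin k → ℕ) (T : Fin k → Polynomial ℤ)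
    (A : ∀ i, Fin (ρ i) → Fin (ρ i) → Polynomial ℤ) (h : ∀ i, Fin (ρ i) → ℚ⟦X⟧)
    (hG : ∀ i, GFamily (T i) (A i) (h i)) (D : ℕ) :
    ∃ c C : ℝ, 0 < c ∧ 0 ≤ C ∧ ∀ P : ∀ i, Fin (n i) → Fin (n i) → MvPolynomial (Option (Fin (ρ i))) ℂ,
      (∀ i a b, (P i a b).totalDegree ≤ e) → ∀ K : Subfield ℂ, FiniteDimensional ℚ K →
      Module.finrank ℚ K ≤ D → ∀ C₀ : Matrix (Fin r) (Fin r) ℂ, ∀ (x : Fin k → ℕ) (N : ℕ), 1 ≤ N →
      (({t : Fin k → ℕ | (∀ i, x i < t i ∧ t i ≤ x i + N) ∧
        (∀ i, IsUnit (perMat (h i) (P i) (t i : ℝ))) ∧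
        ¬ Good K C₀ h P fun i => perMat (h i) (P i) (t i : ℝ)}.ncard : ℕ) : ℝ) ≤
        C * (N : ℝ) ^ (k - 1) * ∑ i, (1 + N / ((x i : ℝ) + N) ^ c) := by
  classical
  obtain ⟨c, C, hc, hC, hmain⟩ := Pool.Agent.Y123.GN.mixed_main k D e r ρ n h fun i δ =>
    Pool.Agent.Results.MP_caab05_ag.BigMonodromyTorsors.fam (hG i) δ
  refine ⟨c, C, hc, hC, ?_⟩
  intro P hP K hKf hKD C₀ x N hN
  set E := {t : Fin k → ℕ | (∀ i, x i < t i ∧ t i ≤ x i + N) ∧
      (∀ i, IsUnit (perMat (h i) (P i) (t i : ℝ))) ∧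
      ¬ Good K C₀ h P fun i => perMat (h i) (P i) (t i : ℝ)} with hE
  have hfin : E.Finite := by
    refine (Set.finite_Iic (fun i : Fin k => x i + N)).subset ?_
    intro t ht i
    exact (ht.1 i).2
  rw [Set.ncard_eq_toFinset_card E hfin]
  refine hmain P hP K hKf hKD C₀ x N hN _ fun t ht => ?_
  have ht' : t ∈ E := hfin.mem_toFinset.1 ht
  exact ⟨ht'.1, ht'.2.1, fun hgood => ht'.2.2 (good_of hgood)⟩

end Pool.Agent.Results.MP_ae0f86_nt.MixedTorsors
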