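import Pool.Agent.Q229.RAE
import Pool.Agent.TH659.AQ.Mixed

/-!
# Periods of several Legendre curves, logarithms and `π` at ALL rational points near almost every real point

Let `α_1 > ⋯ > α_N > c`, `γ_1 < ⋯ < γ_N` and let `y_1, …, y_k` be distinct with `c + y_i > 0`. For rational `q_l` between `α_1` and
`γ_1` we consider the numbers `π`, `K(s)`, `E(s)`, `K(1 - s)` for `s = (q_l - α_j) / (γ_j - α_j)`, and `log (q_l + y_i)`.

The starting file `EllipticAndLogPeriods` bounds the number of the exceptional tuples of height `T` by `T^(2(n-1)+β)` for some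
`β < 2`; with the counting theorem of `Pool.Agent.Y120.RealPolys` (`β` arbitrarily small) and coverings we obtain all rational
points near all real points outside a set of small Hausdorff dimension.
-/

set_option autoImplicit false

open MeasureTheory Filter

namespace Pool.Agent.Results.MP_ae0f86_nt.RationalsNearRealPoints

/-- `K(s) = ∫_0^(π/2) dθ / √(1 - s sin²θ)`. -/
noncomputable def K (s : ℝ) : ℝ := ∫ θ in (0 : ℝ)..(Real.pi / 2), 1 / √(1 - s * Real.sin θ ^ 2)

/-- `E(s) = ∫_0^(π/2) √(1 - s sin²θ) dθ`. -/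
noncomputable def E (s : ℝ) : ℝ := ∫ θ in (0 : ℝ)..(Real.pi / 2), √(1 - s * Real.sin θ ^ 2)

/-- The `(3 N + k) n + 1` numbers `π`, `K(s)`, `E(s)`, `K(1 - s)` for `s = (q_l - α_j) / (γ_j - α_j)`, and
`log (q_l + y_i)`. -/
noncomputable def periods {N k n : ℕ} (α γ : Fin N → ℝ) (y : Fin k → ℝ) (q : Fin n → ℚ)
    (z : Option (Fin n × ((Fin N × Fin 3) ⊕ Fin k))) : ℝ :=
  match z with
  | none => Real.pi
  | some (l, Sum.inl (j, i)) => ![K ((q l - α j) / (γ j - α j)), E ((q l - α j) / (γ j - α j)),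
      K (1 - (q l - α j) / (γ j - α j))] i
  | some (l, Sum.inr i) => Real.log (q l + y i)

/-- **Theorem.** Let `n ≥ 1`, `α_1 > ⋯ > α_N > c`, `γ_1 < ⋯ < γ_N`, `y_1, …, y_k` distinct with `c + y_i > 0`, and consider the
numbers `periods` (domain: `c < x_l`, `α_j < x_l < γ_j`). Then for every `τ > 0` there is a set `Z ⊂ ℝ^n` of Hausdorff dimension at most
`2 (n - 1) / τ` (dimension `0` for `n = 1`), and of Lebesgue measure zero if `2 (n - 1) < n τ`, such that for all `x ∉ Z` in the domain,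
all `d`, `A`, some `B` and all sufficiently large `T` the following holds for ALL rational points `q` with denominators at most `T`
and `|x_j - q_j| ≤ T ^ (-τ)`: every nonzero integer polynomial of degree at most `d` in each variable with coefficients at
most `T ^ A` takes at these numbers a value larger than `T ^ (-B)` in absolute value. -/
theorem result {N k : ℕ} (n : ℕ) (hn : 1 ≤ n) (α γ : Fin N → ℝ) (y : Fin k → ℝ) (hα : StrictAnti α)
    (hγ : StrictMono γ) (hy : Function.Injective y) (c : ℝ) (hcα : ∀ j, c < α j) (hcy : ∀ i, 0 < c + y i) (τ : ℝ) (hτ : 0 < τ) :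
    ∃ Z : Set (Fin n → ℝ), dimH Z ≤ ENNReal.ofReal (2 * ((n : ℝ) - 1) / τ) ∧
      (2 * ((n : ℝ) - 1) < n * τ → volume Z = 0) ∧
      ∀ x : Fin n → ℝ, (∀ l, c < x l ∧ ∀ j, α j < x l ∧ x l < γ j) → x ∉ Z → ∀ (d : ℕ) (A : ℝ), ∃ B : ℝ, ∀ᶠ T : ℝ in atTop,
        ∀ q : Fin n → ℚ, (∀ j, ((q j).den : ℝ) ≤ T ∧ |x j - q j| ≤ T ^ (-τ)) →
        ∀ P : MvPolynomial (Option (Fin n × ((Fin N × Fin 3) ⊕ Fin k))) ℤ, P ≠ 0 → (∀ z, P.degreeOf z ≤ d) →
          (∀ u, |((P.coeff u : ℤ) : ℝ)| ≤ T ^ A) → T ^ (-B) < |MvPolynomial.aeval (periods α γ y q) P| := by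
  have hopen : IsOpen {t : ℝ | c < t ∧ ∀ j, α j < t ∧ t < γ j} := by
    refine (isOpen_lt continuous_const continuous_id).inter ?_
    have h1 : {t : ℝ | ∀ j, α j < t ∧ t < γ j} = ⋂ j, {t : ℝ | α j < t ∧ t < γ j} := by
      ext t
      simp
    have h2 : IsOpen {t : ℝ | ∀ j, α j < t ∧ t < γ j} := by
      rw [h1]
      exact isOpen_iInter_of_finite fun j => isOpen_Ioo
    exact h2
  refine Pool.Agent.Q229.RA.masterOR hn (fun _ p t => TH659.AQ.um α γ y p t)
    (fun _ => {t : ℝ | c < t ∧ ∀ j, α j < t ∧ t < γ j}) (fun _ => hopen)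
    (fun _ p t ht => TH659.AQ.um_an α γ y t ht.2 (fun i => by linarith [hcy i, ht.1]) p) ?_
    (fun q => periods α γ y q) (fun _ => rfl) ?_ τ hτ
  · intro l a b hab hsub d
    have ha := hsub ⟨le_rfl, hab.le⟩
    have hb := hsub ⟨hab.le, le_rfl⟩
    exact TH659.AQ.um_ind d α γ y hα hγ (fun j => (ha.2 j).1.trans (ha.2 j).2) hy c hcα hcy a b hab ha.1.le
      (fun j => ⟨(ha.2 j).1.le, (hb.2 j).2.le⟩)
  · rintro q hq l (⟨j, i⟩ | i)
    · have hne : γ j - α j ≠ 0 := by linarith [((hq l).2 j).1, ((hq l).2 j).2]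
      fin_cases i
      · rfl
      · rfl
      · show K (1 - (q l - α j) / (γ j - α j)) = TH818.AR.KK ((γ j - q l) / (γ j - α j))
        have : 1 - ((q l : ℝ) - α j) / (γ j - α j) = (γ j - q l) / (γ j - α j) := by
          field_simp
          ring
        rw [this]
        rfl
    · rfl

end Pool.Agent.Results.MP_ae0f86_nt.RationalsNearRealPoints
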